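import Pool.Agent.Zk82.DN.Vdc
import Pool.Agent.N24.RW.Defs

/-!
# The integers formed by the first digits of normal numbers, modulo `q`

`A` is the set of the digit vectors `ι → Fin b`, `d : ℕ → ι → Fin b` a normal sequence (`NormalSeq`): every
word of length `k` occurs with the frequency `(b ^ |ι|) ^ (-k)`. The vectors `trunc d n`, whose `i`-th
coordinate is the integer with the digits `d 0 i, …, d (n - 1) i` in base `b`, are uniformly distributed
modulo every `q` prime to `b`, and so they are in a pronull set only for `n` of density zero.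
-/

set_option autoImplicit false

namespace Pool.Agent.Zk82.DN

open Filter Topology Finset

variable {ι : Type} [Fintype ι] [DecidableEq ι] {b : ℕ}

/-- the vector of the integers with the digits `d 0, …, d (n - 1)` in base `b` -/
def trunc (d : ℕ → ι → Fin b) : ℕ → ι → ℤ
  | 0 => fun _ => 0
  | n + 1 => fun i => (b : ℤ) * trunc d n i + (d n i : ℕ)

/-- each word of `k` digit vectors occurs with the frequency `(b ^ |ι|) ^ (-k)` -/
def NormalSeq (d : ℕ → ι → Fin b) : Prop :=
  ∀ (k : ℕ) (w : Fin k → ι → Fin b),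
    Tendsto (fun N : ℕ => (({n : ℕ | n < N ∧ ∀ j : Fin k, d (n + j) = w j}.ncard : ℕ) : ℝ) / (N : ℝ))
      atTop (𝓝 (1 / ((b : ℝ) ^ Fintype.card ι) ^ k))

/-- the character `x ↦ e (∑ g i x i / q)` -/
noncomputable def chr {q : ℕ} [NeZero q] (g x : ι → ZMod q) : ℂ :=
  ZMod.stdAddChar (N := q) (∑ i, g i * x i)

variable {q : ℕ} [NeZero q]

lemma chr_add (g x y : ι → ZMod q) : chr g (x + y) = chr g x * chr g y := by
  unfold chr
  rw [← AddChar.map_add_eq_mul, ← Finset.sum_add_distrib]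
  congr 1
  exact Finset.sum_congr rfl fun i _ => by simp only [Pi.add_apply]; ring

lemma norm_chr (g x : ι → ZMod q) : ‖chr g x‖ = 1 := by
  unfold chr
  exact AddChar.norm_apply _ _

lemma chr_zero (g : ι → ZMod q) : chr g 0 = 1 := by
  unfold chr
  simp

/-- a digit vector modulo `q` -/
def dz (q : ℕ) (a : ι → Fin b) : ι → ZMod q := fun i => ((a i : ℕ) : ZMod q)

/-- the vector `∑ b ^ (k - 1 - l) w l` modulo `q` -/
def V (q : ℕ) (w : ℕ → ι → Fin b) : ℕ → ι → ZMod q
  | 0 => 0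
  | k + 1 => fun i => (b : ZMod q) * V q w k i + ((w k i : ℕ) : ZMod q)

lemma trunc_cast (d : ℕ → ι → Fin b) (n : ℕ) : (fun i => ((trunc d n i : ℤ) : ZMod q)) = V q d n := by
  induction n with
  | zero => funext i; simp [trunc, V]
  | succ n ih =>
    funext i
    have := congrFun ih i
    simp only [trunc, V] at this ⊢
    push_cast
    rw [this]

lemma V_add (d : ℕ → ι → Fin b) (n k : ℕ) :
    V q d (n + k) = fun i => (b : ZMod q) ^ k * V q d n i + V q (fun j => d (n + j)) k i := by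
  induction k with
  | zero => funext i; simp [V]
  | succ k ih =>
    funext i
    have := congrFun ih i
    rw [← Nat.add_assoc]
    simp only [V]
    rw [this]
    ring

lemma V_closed (w : ℕ → ι → Fin b) (k : ℕ) :
    V q w k = ∑ l ∈ range k, fun i => (b : ZMod q) ^ (k - 1 - l) * ((w l i : ℕ) : ZMod q) := by
  induction k with
  | zero => simp [V]
  | succ k ih =>
    funext i
    simp only [V]
    rw [ih, Finset.sum_range_succ, Finset.sum_apply, Pi.add_apply, Finset.sum_apply, Finset.mul_sum]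
    congr 1
    · refine Finset.sum_congr rfl fun l hl => ?_
      rw [mem_range] at hl
      rw [← mul_assoc, ← pow_succ']
      congr 2
      omega
    · simp

/-- the sum of the character over the digit vectors -/
noncomputable def φ (b : ℕ) (g : ι → ZMod q) : ℂ := ∑ a : ι → Fin b, chr g (dz q a)

lemma norm_one_add_lt {z : ℂ} (hz : ‖z‖ = 1) (h1 : z ≠ 1) : ‖1 + z‖ < 2 := by
  by_contra hcon
  push Not at hcon
  have h2 : (4 : ℝ) ≤ Complex.normSq (1 + z) := by
    rw [Complex.normSq_eq_norm_sq]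
    nlinarith
  have h3 : Complex.normSq z = 1 := by rw [Complex.normSq_eq_norm_sq, hz]; norm_num
  rw [Complex.normSq_apply] at h2 h3
  simp only [Complex.add_re, Complex.one_re, Complex.add_im, Complex.one_im, zero_add] at h2
  have h4 : z.re = 1 := by nlinarith [mul_self_nonneg z.im]
  have h5 : z.im = 0 := by
    rw [h4] at h3
    nlinarith [mul_self_nonneg z.im]
  exact h1 (Complex.ext (by simpa using h4) (by simpa using h5))

lemma norm_φ_lt (hb : 2 ≤ b) {g : ι → ZMod q} (hg : g ≠ 0) :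
    ‖φ b g‖ < (b : ℝ) ^ Fintype.card ι := by
  classical
  obtain ⟨i₀, hi₀⟩ : ∃ i, g i ≠ 0 := by
    by_contra h
    push Not at h
    exact hg (funext h)
  set a0 : ι → Fin b := fun _ => ⟨0, by omega⟩ with ha0
  set a1 : ι → Fin b := fun i => if i = i₀ then ⟨1, by omega⟩ else ⟨0, by omega⟩ with ha1
  have hne : a0 ≠ a1 := by
    intro h
    have := congrFun h i₀
    rw [ha0, ha1] at this
    simp at this
  have h0 : chr g (dz q a0) = 1 := by
    have : dz q a0 = (0 : ι → ZMod q) := by funext i; simp [dz, ha0]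
    rw [this, chr_zero]
  have h1 : chr g (dz q a1) ≠ 1 := by
    have e : ∑ i, g i * dz q a1 i = g i₀ := by
      rw [Finset.sum_eq_single i₀]
      · simp [dz, ha1]
      · intro i _ hi
        simp [dz, ha1, hi]
      · intro h
        exact absurd (Finset.mem_univ _) h
    unfold chr
    rw [e]
    intro h
    have h2 : ZMod.stdAddChar (N := q) (g i₀) = ZMod.stdAddChar (N := q) 0 := by
      rw [h, AddChar.map_zero_eq_one]
    exact hi₀ (ZMod.injective_stdAddChar h2)
  have hsplit : φ b g = (chr g (dz q a0) + chr g (dz q a1)) +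
      ∑ a ∈ (Finset.univ.erase a0).erase a1, chr g (dz q a) := by
    unfold φ
    rw [← Finset.add_sum_erase _ _ (Finset.mem_univ a0),
      ← Finset.add_sum_erase _ _ (Finset.mem_erase.2 ⟨hne.symm, Finset.mem_univ a1⟩)]
    ring
  have hcard : ((Finset.univ.erase a0).erase a1).card + 2 = b ^ Fintype.card ι := by
    rw [Finset.card_erase_of_mem (Finset.mem_erase.2 ⟨hne.symm, Finset.mem_univ a1⟩),
      Finset.card_erase_of_mem (Finset.mem_univ a0), Finset.card_univ]
    have h2 : Fintype.card (ι → Fin b) = b ^ Fintype.card ι := by simp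
    have h3 : 2 ≤ Fintype.card (ι → Fin b) := by
      have : Nontrivial (ι → Fin b) := ⟨⟨a0, a1, hne⟩⟩
      exact Fintype.one_lt_card
    omega
  have h2 : ‖∑ a ∈ (Finset.univ.erase a0).erase a1, chr g (dz q a)‖ ≤
      ((Finset.univ.erase a0).erase a1).card := by
    refine (norm_sum_le _ _).trans ?_
    simp [norm_chr]
  have h3 : ‖chr g (dz q a0) + chr g (dz q a1)‖ < 2 := by
    rw [h0]
    exact norm_one_add_lt (norm_chr _ _) h1
  have h4 : ((((Finset.univ.erase a0).erase a1).card : ℕ) : ℝ) + 2 = (b : ℝ) ^ Fintype.card ι := by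
    exact_mod_cast hcard
  rw [hsplit]
  calc ‖(chr g (dz q a0) + chr g (dz q a1)) +
        ∑ a ∈ (Finset.univ.erase a0).erase a1, chr g (dz q a)‖
      ≤ ‖chr g (dz q a0) + chr g (dz q a1)‖ +
        ‖∑ a ∈ (Finset.univ.erase a0).erase a1, chr g (dz q a)‖ := norm_add_le _ _
    _ < 2 + ((((Finset.univ.erase a0).erase a1).card : ℕ) : ℝ) := by linarith
    _ = (b : ℝ) ^ Fintype.card ι := by linarith

lemma exists_lam (hb : 2 ≤ b) (q : ℕ) [NeZero q] : ∃ lam : ℝ, 0 ≤ lam ∧ lam < 1 ∧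
    ∀ g : ι → ZMod q, g ≠ 0 → ‖φ b g‖ ≤ lam * (b : ℝ) ^ Fintype.card ι := by
  classical
  have hB : (0 : ℝ) < (b : ℝ) ^ Fintype.card ι := by
    have : (0 : ℝ) < b := by exact_mod_cast (by omega : 0 < b)
    positivity
  obtain ⟨g₀, hg₀⟩ := Finite.exists_max
    (fun g : ι → ZMod q => if g = 0 then (0 : ℝ) else ‖φ b g‖ / (b : ℝ) ^ Fintype.card ι)
  refine ⟨if g₀ = 0 then (0 : ℝ) else ‖φ b g₀‖ / (b : ℝ) ^ Fintype.card ι, ?_, ?_, ?_⟩
  · split_ifs <;> positivity
  · split_ifs with h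
    · norm_num
    · rw [div_lt_one hB]
      exact norm_φ_lt hb h
  · intro g hg
    have h1 := hg₀ g
    simp only [if_neg hg] at h1
    rwa [div_le_iff₀ hB] at h1

/-- the sum of the character over the words of length `k` -/
lemma word_sum (hb : 2 ≤ b) (hcop : b.Coprime q) {lam : ℝ} (hlam0 : 0 ≤ lam)
    (hlam : ∀ g : ι → ZMod q, g ≠ 0 → ‖φ b g‖ ≤ lam * (b : ℝ) ^ Fintype.card ι)
    {g : ι → ZMod q} (hg : g ≠ 0) (k : ℕ) (a₀ : ι → Fin b) :
    ‖∑ w : Fin k → ι → Fin b, chr g (V q (fun l => if h : l < k then w ⟨l, h⟩ else a₀) k)‖ ≤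
      (lam * (b : ℝ) ^ Fintype.card ι) ^ k := by
  classical
  have hunit : IsUnit (b : ZMod q) := (ZMod.isUnit_iff_coprime b q).2 hcop
  have e1 : ∀ w : Fin k → ι → Fin b,
      chr g (V q (fun l => if h : l < k then w ⟨l, h⟩ else a₀) k) =
        ∏ l : Fin k, chr (fun i => (b : ZMod q) ^ (k - 1 - (l : ℕ)) * g i) (dz q (w l)) := by
    intro w
    rw [V_closed, Finset.sum_range]
    have h1 : ∀ (T : Finset (Fin k)) (F : Fin k → ι → ZMod q),
        chr g (∑ l ∈ T, F l) = ∏ l ∈ T, chr g (F l) := by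
      intro T F
      induction T using Finset.induction_on with
      | empty => simp [chr_zero]
      | insert a s ha ih => rw [Finset.sum_insert ha, Finset.prod_insert ha, chr_add, ih]
    rw [h1]
    refine Finset.prod_congr rfl fun l _ => ?_
    unfold chr
    congr 1
    refine Finset.sum_congr rfl fun i _ => ?_
    simp only [Fin.is_lt, dite_true, Fin.eta, dz]
    ring
  rw [Finset.sum_congr rfl fun w _ => e1 w]
  rw [← Fintype.prod_sum (fun (l : Fin k) (a : ι → Fin b) =>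
    chr (fun i => (b : ZMod q) ^ (k - 1 - (l : ℕ)) * g i) (dz q a))]
  rw [norm_prod]
  have h2 : ∀ l ∈ (Finset.univ : Finset (Fin k)),
      ‖∑ a : ι → Fin b, chr (fun i => (b : ZMod q) ^ (k - 1 - (l : ℕ)) * g i) (dz q a)‖ ≤
        lam * (b : ℝ) ^ Fintype.card ι := by
    intro l _
    refine hlam _ fun h => hg ?_
    funext i
    have h3 := congrFun h i
    simp only [Pi.zero_apply] at h3
    exact ((hunit.pow _).mul_right_eq_zero).1 h3
  calc ∏ l : Fin k, ‖∑ a : ι → Fin b,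
        chr (fun i => (b : ZMod q) ^ (k - 1 - (l : ℕ)) * g i) (dz q a)‖
      ≤ ∏ _l : Fin k, (lam * (b : ℝ) ^ Fintype.card ι) :=
        Finset.prod_le_prod (fun _ _ => norm_nonneg _) h2
    _ = _ := by simp

lemma V_congr {w w' : ℕ → ι → Fin b} {k : ℕ} (h : ∀ l < k, w l = w' l) : V q w k = V q w' k := by
  induction k with
  | zero => rfl
  | succ k ih =>
    funext i
    simp only [V]
    rw [ih fun l hl => h l (by omega), h k (by omega)]

/-- the means of the character over the blocks of length `k` -/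
lemma corr_le (hb : 2 ≤ b) (hcop : b.Coprime q) {d : ℕ → ι → Fin b} (hd : NormalSeq d) {lam : ℝ}
    (hlam0 : 0 ≤ lam)
    (hlam : ∀ g : ι → ZMod q, g ≠ 0 → ‖φ b g‖ ≤ lam * (b : ℝ) ^ Fintype.card ι)
    {g : ι → ZMod q} (hg : g ≠ 0) (k : ℕ) {ε : ℝ} (hε : lam ^ k < ε) :
    ∀ᶠ N : ℕ in atTop, ‖∑ n ∈ range N, chr g (V q (fun j => d (n + j)) k)‖ ≤ ε * N := by
  classical
  have hB : (0 : ℝ) < (b : ℝ) ^ Fintype.card ι := by
    have : (0 : ℝ) < b := by exact_mod_cast (by omega : 0 < b)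
    positivity
  let a₀ : ι → Fin b := fun _ => ⟨0, by omega⟩
  let X : (Fin k → ι → Fin b) → ℂ :=
    fun w => chr g (V q (fun l => if h : l < k then w ⟨l, h⟩ else a₀) k)
  let cnt : (Fin k → ι → Fin b) → ℕ → ℕ :=
    fun w N => {n : ℕ | n < N ∧ ∀ j : Fin k, d (n + j) = w j}.ncard
  have e1 : ∀ N : ℕ, ∑ n ∈ range N, chr g (V q (fun j => d (n + j)) k) =
      ∑ w : Fin k → ι → Fin b, (cnt w N : ℂ) * X w := by
    intro N
    have h1 : ∀ n ∈ range N, chr g (V q (fun j => d (n + j)) k) =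
        ∑ w : Fin k → ι → Fin b, if (∀ j : Fin k, d (n + j) = w j) then X w else 0 := by
      intro n _
      rw [Finset.sum_eq_single (fun j : Fin k => d (n + j))]
      · rw [if_pos fun _ => rfl]
        simp only [X]
        congr 1
        exact V_congr fun l hl => by simp [hl]
      · intro w _ hw
        rw [if_neg]
        intro h
        exact hw (funext fun j => (h j).symm)
      · intro h
        exact absurd (Finset.mem_univ _) h
    rw [Finset.sum_congr rfl h1, Finset.sum_comm]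
    refine Finset.sum_congr rfl fun w _ => ?_
    rw [← Finset.sum_filter, Finset.sum_const, nsmul_eq_mul]
    congr 2
    simp only [cnt]
    rw [← Set.ncard_coe_finset]
    congr 1
    ext n
    simp
  have h2 : Tendsto (fun N : ℕ => ∑ w : Fin k → ι → Fin b, (((cnt w N : ℝ) / (N : ℝ) : ℝ) : ℂ) * X w)
      atTop (𝓝 (∑ w : Fin k → ι → Fin b,
        ((1 / ((b : ℝ) ^ Fintype.card ι) ^ k : ℝ) : ℂ) * X w)) := by
    refine tendsto_finsetSum _ fun w _ => ?_
    refine Tendsto.mul_const _ ?_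
    exact (Complex.continuous_ofReal.tendsto _).comp (hd k w)
  have h3 : ‖∑ w : Fin k → ι → Fin b, ((1 / ((b : ℝ) ^ Fintype.card ι) ^ k : ℝ) : ℂ) * X w‖ < ε := by
    rw [← Finset.mul_sum, norm_mul, Complex.norm_real, Real.norm_of_nonneg (by positivity)]
    have h4 := word_sum hb hcop hlam0 hlam hg k a₀
    have h5 : 1 / ((b : ℝ) ^ Fintype.card ι) ^ k * ‖∑ w : Fin k → ι → Fin b, X w‖ ≤ lam ^ k := by
      rw [one_div, inv_mul_le_iff₀ (by positivity)]
      refine h4.trans (le_of_eq ?_)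
      rw [mul_pow]
      ring
    exact h5.trans_lt hε
  have h4 := (h2.norm.eventually_lt_const h3)
  filter_upwards [h4, eventually_gt_atTop 0] with N h5 hN
  have hN0 : (0 : ℝ) < N := by exact_mod_cast hN
  rw [e1]
  have h6 : ∑ w : Fin k → ι → Fin b, (cnt w N : ℂ) * X w =
      (N : ℂ) * ∑ w : Fin k → ι → Fin b, (((cnt w N : ℝ) / (N : ℝ) : ℝ) : ℂ) * X w := by
    rw [Finset.mul_sum]
    refine Finset.sum_congr rfl fun w _ => ?_
    push_cast
    have : (N : ℂ) ≠ 0 := by exact_mod_cast hN0.ne'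
    field_simp
  rw [h6, norm_mul, Complex.norm_natCast, mul_comm ε]
  exact mul_le_mul_of_nonneg_left h5.le hN0.le

/-- exponential sums over the truncations -/
lemma exp_sum (hb : 2 ≤ b) (hcop : b.Coprime q) {d : ℕ → ι → Fin b} (hd : NormalSeq d)
    {g : ι → ZMod q} (hg : g ≠ 0) : ∀ η : ℝ, 0 < η →
    ∀ᶠ N : ℕ in atTop, ‖∑ n ∈ range N, chr g (V q d n)‖ ≤ η * N := by
  obtain ⟨lam, hlam0, hlam1, hlam⟩ := exists_lam (ι := ι) hb q
  refine vdc _ (fun n => (norm_chr _ _).le) fun ε hε => ?_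
  -- choose the shift
  obtain ⟨L, hL⟩ := exists_pow_lt_of_lt_one hε hlam1
  have hφ0 : 0 < q.totient := Nat.totient_pos.2 (NeZero.pos q)
  refine ⟨q.totient * (L + 1), fun m hm => ?_⟩
  have hbp : ((b : ZMod q)) ^ (m * (q.totient * (L + 1))) = 1 := by
    have h1 : (b : ZMod q) ^ q.totient = 1 := by
      have h2 := Nat.ModEq.pow_totient hcop
      have h3 := (ZMod.natCast_eq_natCast_iff _ _ _).2 h2
      simpa using h3
    rw [show m * (q.totient * (L + 1)) = q.totient * (m * (L + 1)) by ring, pow_mul, h1, one_pow]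
  have hlt : lam ^ (m * (q.totient * (L + 1))) < ε := by
    refine lt_of_le_of_lt ?_ hL
    refine pow_le_pow_of_le_one hlam0 hlam1.le ?_
    have h1 : 1 * (1 * (L + 1)) ≤ m * (q.totient * (L + 1)) :=
      Nat.mul_le_mul hm (Nat.mul_le_mul_right _ hφ0)
    omega
  filter_upwards [corr_le hb hcop hd hlam0 hlam hg (m * (q.totient * (L + 1))) hlt] with N hN
  refine le_trans (le_of_eq ?_) hN
  congr 1
  refine Finset.sum_congr rfl fun n _ => ?_
  rw [V_add]
  have e : (fun i => (b : ZMod q) ^ (m * (q.totient * (L + 1))) * V q d n i +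
      V q (fun j => d (n + j)) (m * (q.totient * (L + 1))) i) =
      V q (fun j => d (n + j)) (m * (q.totient * (L + 1))) + V q d n := by
    funext i
    rw [hbp, one_mul, Pi.add_apply, add_comm]
  rw [e, chr_add, mul_assoc, Complex.mul_conj, Complex.normSq_eq_norm_sq, norm_chr]
  simp

/-- orthogonality -/
lemma orth (x : ι → ZMod q) :
    ∑ g : ι → ZMod q, chr g x = if x = 0 then (q : ℂ) ^ Fintype.card ι else 0 := by
  classical
  have e1 : ∀ g : ι → ZMod q, chr g x = ∏ i, ZMod.stdAddChar (N := q) (g i * x i) := by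
    intro g
    unfold chr
    have h : ∀ s : Finset ι, ZMod.stdAddChar (N := q) (∑ i ∈ s, g i * x i) =
        ∏ i ∈ s, ZMod.stdAddChar (N := q) (g i * x i) := by
      intro s
      induction s using Finset.induction_on with
      | empty => simp
      | insert i s hi ih => rw [Finset.sum_insert hi, Finset.prod_insert hi,
          AddChar.map_add_eq_mul, ih]
    exact h _
  rw [Finset.sum_congr rfl fun g _ => e1 g]
  rw [← Fintype.prod_sum (fun (i : ι) (y : ZMod q) => ZMod.stdAddChar (N := q) (y * x i))]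
  have h1 : ∀ i, ∑ y : ZMod q, ZMod.stdAddChar (N := q) (y * x i) = if x i = 0 then (q : ℂ) else 0 := by
    intro i
    have := AddChar.sum_mulShift (x i) (ZMod.isPrimitive_stdAddChar q)
    rw [this, ZMod.card]
    split_ifs <;> simp
  rw [Finset.prod_congr rfl fun i _ => h1 i]
  split_ifs with h
  · rw [h]
    simp
  · obtain ⟨i, hi⟩ : ∃ i, x i ≠ 0 := by
      by_contra hcon
      push Not at hcon
      exact h (funext hcon)
    exact Finset.prod_eq_zero (Finset.mem_univ i) (if_neg hi)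

/-- **equidistribution** of the truncations modulo `q` -/
theorem equi (hb : 2 ≤ b) (hcop : b.Coprime q) {d : ℕ → ι → Fin b} (hd : NormalSeq d)
    (ρ : ι → ZMod q) (η : ℝ) (hη : 0 < η) : ∀ᶠ N : ℕ in atTop,
    (({n : ℕ | n < N ∧ V q d n = ρ}.ncard : ℕ) : ℝ) ≤
      (((q : ℝ) ^ Fintype.card ι)⁻¹ + η) * N := by
  classical
  have hq0 : (0 : ℝ) < q := by exact_mod_cast NeZero.pos q
  have hqc : (0 : ℝ) < (q : ℝ) ^ Fintype.card ι := by positivity
  have hall : ∀ᶠ N : ℕ in atTop, ∀ g ∈ (Finset.univ.erase (0 : ι → ZMod q)),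
      ‖∑ n ∈ range N, chr g (V q d n)‖ ≤ η * N := by
    rw [Filter.eventually_all_finset]
    intro g hg
    exact exp_sum hb hcop hd (Finset.ne_of_mem_erase hg) η hη
  filter_upwards [hall] with N hN
  have e1 : ((({n : ℕ | n < N ∧ V q d n = ρ}.ncard : ℕ) : ℂ)) * (q : ℂ) ^ Fintype.card ι =
      ∑ g : ι → ZMod q, chr g (-ρ) * ∑ n ∈ range N, chr g (V q d n) := by
    have h1 : ∀ n ∈ range N, ∑ g : ι → ZMod q, chr g (-ρ) * chr g (V q d n) =
        if V q d n = ρ then (q : ℂ) ^ Fintype.card ι else 0 := by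
      intro n _
      have h2 : ∀ g : ι → ZMod q, chr g (-ρ) * chr g (V q d n) = chr g (V q d n - ρ) := by
        intro g
        rw [← chr_add, neg_add_eq_sub]
      rw [Finset.sum_congr rfl fun g _ => h2 g, orth]
      simp only [sub_eq_zero]
    simp only [Finset.mul_sum]
    rw [Finset.sum_comm, Finset.sum_congr rfl h1, ← Finset.sum_filter, Finset.sum_const,
      nsmul_eq_mul]
    congr 2
    rw [← Set.ncard_coe_finset]
    congr 1
    ext n
    simp
  have e2 : ∑ g : ι → ZMod q, chr g (-ρ) * ∑ n ∈ range N, chr g (V q d n) =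
      (N : ℂ) + ∑ g ∈ Finset.univ.erase (0 : ι → ZMod q),
        chr g (-ρ) * ∑ n ∈ range N, chr g (V q d n) := by
    rw [← Finset.add_sum_erase _ _ (Finset.mem_univ (0 : ι → ZMod q))]
    congr 1
    have h0 : ∀ x : ι → ZMod q, chr (0 : ι → ZMod q) x = 1 := by
      intro x
      unfold chr
      simp
    simp [h0]
  have h3 : (({n : ℕ | n < N ∧ V q d n = ρ}.ncard : ℕ) : ℝ) * (q : ℝ) ^ Fintype.card ι ≤
      N + (q : ℝ) ^ Fintype.card ι * (η * N) := by
    have h4 : (({n : ℕ | n < N ∧ V q d n = ρ}.ncard : ℕ) : ℝ) * (q : ℝ) ^ Fintype.card ι =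
        ‖((({n : ℕ | n < N ∧ V q d n = ρ}.ncard : ℕ) : ℂ)) * (q : ℂ) ^ Fintype.card ι‖ := by
      rw [norm_mul, norm_pow, Complex.norm_natCast, Complex.norm_natCast]
    rw [h4, e1, e2]
    refine (norm_add_le _ _).trans (add_le_add (by rw [Complex.norm_natCast]) ?_)
    refine (norm_sum_le _ _).trans ?_
    have h5 : ∀ g ∈ Finset.univ.erase (0 : ι → ZMod q),
        ‖chr g (-ρ) * ∑ n ∈ range N, chr g (V q d n)‖ ≤ η * N := by
      intro g hg
      rw [norm_mul, norm_chr, one_mul]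
      exact hN g hg
    refine (Finset.sum_le_sum h5).trans ?_
    rw [Finset.sum_const, nsmul_eq_mul]
    refine mul_le_mul_of_nonneg_right ?_ (by positivity)
    have h6 : (Finset.univ.erase (0 : ι → ZMod q)).card ≤ q ^ Fintype.card ι := by
      refine (Finset.card_le_univ _).trans (le_of_eq ?_)
      rw [Fintype.card_fun, ZMod.card]
    exact_mod_cast h6
  have h7 : (({n : ℕ | n < N ∧ V q d n = ρ}.ncard : ℕ) : ℝ) ≤
      (N + (q : ℝ) ^ Fintype.card ι * (η * N)) / (q : ℝ) ^ Fintype.card ι := by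
    rw [le_div_iff₀ hqc]
    exact h3
  refine h7.trans (le_of_eq ?_)
  field_simp

open Pool.Agent.N24.RW (ProNull)

/-- **The truncations of a normal sequence are in a pronull set only for `n` of density zero.** -/
theorem rarely (hb : 2 ≤ b) {d : ℕ → ι → Fin b} (hd : NormalSeq d) (B : Set (ι → ℤ))
    (hB : ProNull B) :
    Tendsto (fun N : ℕ => (({n : ℕ | n < N ∧ n ∈ {n : ℕ | trunc d n ∈ B}}.ncard : ℕ) : ℝ) / (N : ℝ))
      atTop (𝓝 0) := by
  classical
  rw [Metric.tendsto_atTop]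
  intro ε hε
  obtain ⟨q, hq0, hqb, hqB⟩ := hB b (by omega) (ε / 4) (by positivity)
  have : NeZero q := ⟨hq0.ne'⟩
  have hq0' : (0 : ℝ) < q := by exact_mod_cast hq0
  set Im : Set (ι → ZMod q) := (fun (c : ι → ℤ) (i : ι) => (c i : ZMod q)) '' B with hIm
  have hImf : Im.Finite := Set.toFinite _
  set T : Finset (ι → ZMod q) := hImf.toFinset with hT
  set η : ℝ := ε / (4 * (T.card + 1)) with hη
  have hη0 : 0 < η := by positivity
  have hall : ∀ᶠ N : ℕ in atTop, ∀ ρ ∈ T,
      (({n : ℕ | n < N ∧ V q d n = ρ}.ncard : ℕ) : ℝ) ≤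
        (((q : ℝ) ^ Fintype.card ι)⁻¹ + η) * N := by
    rw [Filter.eventually_all_finset]
    intro ρ _
    exact equi hb hqb.symm hd ρ η hη0
  obtain ⟨N₀, hN₀⟩ := Filter.eventually_atTop.1 hall
  refine ⟨N₀ + 1, fun N hN => ?_⟩
  have hN0 : (0 : ℝ) < N := by exact_mod_cast (by omega : 0 < N)
  have h1 := hN₀ N (by omega)
  have hsub : {n : ℕ | n < N ∧ n ∈ {n : ℕ | trunc d n ∈ B}} ⊆
      ⋃ ρ ∈ T, {n : ℕ | n < N ∧ V q d n = ρ} := by
    rintro n ⟨hn, hnB⟩
    rw [Set.mem_iUnion₂]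
    refine ⟨V q d n, ?_, hn, rfl⟩
    rw [hT, Set.Finite.mem_toFinset, ← trunc_cast]
    exact ⟨trunc d n, hnB, rfl⟩
  have hfin : ∀ ρ, {n : ℕ | n < N ∧ V q d n = ρ}.Finite := fun ρ =>
    (Set.finite_Iio N).subset fun n hn => hn.1
  have h2 : (({n : ℕ | n < N ∧ n ∈ {n : ℕ | trunc d n ∈ B}}.ncard : ℕ) : ℝ) ≤
      ∑ ρ ∈ T, (({n : ℕ | n < N ∧ V q d n = ρ}.ncard : ℕ) : ℝ) := by
    have h3 := Set.ncard_le_ncard hsub (T.finite_toSet.biUnion fun ρ _ => hfin ρ)
    have h4 : (⋃ ρ ∈ T, {n : ℕ | n < N ∧ V q d n = ρ}).ncard ≤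
        ∑ ρ ∈ T, {n : ℕ | n < N ∧ V q d n = ρ}.ncard := by
      have h5 : (⋃ ρ ∈ T, {n : ℕ | n < N ∧ V q d n = ρ}) =
          ((T.biUnion fun ρ => (hfin ρ).toFinset : Finset ℕ) : Set ℕ) := by
        ext n
        simp
      rw [h5, Set.ncard_coe_finset]
      refine Finset.card_biUnion_le.trans (Finset.sum_le_sum fun ρ _ => ?_)
      rw [Set.ncard_eq_toFinset_card _ (hfin ρ)]
    exact_mod_cast h3.trans h4
  have h6 : ∑ ρ ∈ T, (({n : ℕ | n < N ∧ V q d n = ρ}.ncard : ℕ) : ℝ) ≤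
      T.card * ((((q : ℝ) ^ Fintype.card ι)⁻¹ + η) * N) := by
    refine (Finset.sum_le_sum h1).trans ?_
    rw [Finset.sum_const, nsmul_eq_mul]
  have hTc : (T.card : ℝ) ≤ ε / 4 * (q : ℝ) ^ Fintype.card ι := by
    have : T.card = Im.ncard := (Set.ncard_eq_toFinset_card _ hImf).symm
    rw [this]
    exact hqB
  have h7 : (T.card : ℝ) * (((q : ℝ) ^ Fintype.card ι)⁻¹ + η) ≤ ε / 2 := by
    have hqc : (0 : ℝ) < (q : ℝ) ^ Fintype.card ι := by positivity
    have h8 : (T.card : ℝ) * ((q : ℝ) ^ Fintype.card ι)⁻¹ ≤ ε / 4 := by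
      rw [← div_eq_mul_inv, div_le_iff₀ hqc]
      exact hTc
    have h9 : (T.card : ℝ) * η ≤ ε / 4 := by
      rw [hη, mul_div_assoc', div_le_div_iff₀ (by positivity) (by norm_num)]
      nlinarith [Nat.cast_nonneg (α := ℝ) T.card]
    rw [mul_add]
    linarith
  rw [Real.dist_eq, sub_zero, abs_of_nonneg (by positivity), div_lt_iff₀ hN0]
  calc (({n : ℕ | n < N ∧ n ∈ {n : ℕ | trunc d n ∈ B}}.ncard : ℕ) : ℝ)
      ≤ T.card * ((((q : ℝ) ^ Fintype.card ι)⁻¹ + η) * N) := h2.trans h6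
    _ = (T.card * (((q : ℝ) ^ Fintype.card ι)⁻¹ + η)) * N := by ring
    _ ≤ ε / 2 * N := mul_le_mul_of_nonneg_right h7 hN0.le
    _ < ε * N := by nlinarith

end Pool.Agent.Zk82.DN
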