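import Pool.Agent.Zk82.DN.Pre
import Pool.Agent.N676.OR.Diag

/-!
# One set of indices of density zero for all pronull sets, prefixes and linear forms (helper file)
-/

set_option autoImplicit false

namespace Pool.Agent.Zk82.DN

open Filter Topology
open Pool.Agent.N24.RW (ProNull)
open Pool.Agent.N676.OR (Hit Big lin pro_hits DensityZero diag dz_empty)

variable {ι : Type} [Fintype ι] [DecidableEq ι] {b : ℕ}

/-- countably many pronull sets and prefixes, one set of indices of density zero -/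
theorem one_set (hb : 2 ≤ b) {d : ℕ → ι → Fin b} (hd : NormalSeq d) {κ : Type} [Countable κ]
    (B : κ → Set (ι → ℤ)) (hB : ∀ x, ProNull (B x)) :
    ∃ E : Set ℕ, DensityZero E ∧ ∀ (P : ι → ℤ) (x : κ),
      {n : ℕ | n ∉ E ∧ (fun i => P i * (b : ℤ) ^ n + trunc d n i) ∈ B x}.Finite := by
  classical
  rcases isEmpty_or_nonempty κ with hκ | hκ
  · exact ⟨∅, dz_empty, fun P x => (hκ.false x).elim⟩
  obtain ⟨f, hf⟩ := exists_surjective_nat ((ι → ℤ) × κ)
  obtain ⟨E, hE1, hE2⟩ := diag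
    (fun k => {n : ℕ | (fun i => (f k).1 i * (b : ℤ) ^ n + trunc d n i) ∈ B (f k).2})
    (fun k => rarelyP (f k).1 hb hd (B (f k).2) (hB (f k).2))
  refine ⟨E, hE1, fun P x => ?_⟩
  obtain ⟨k, hk⟩ := hf (P, x)
  refine (hE2 k).subset ?_
  rintro n ⟨hn1, hn2⟩
  refine ⟨?_, hn1⟩
  rw [hk]
  exact hn2

/-- For countably many properties of integers which hold for all integers which are divisible exactly
once by a prime of each of finitely many big sets: one set of indices of density zero for all the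
properties, all the prefixes and all the linear forms. -/
theorem one_tw (hb : 2 ≤ b) {d : ℕ → ι → Fin b} (hd : NormalSeq d) {𝔇 : Type} [Countable 𝔇]
    (good : 𝔇 → ℤ → Prop)
    (h : ∀ D, ∃ PP : Set (Set ℕ), PP.Finite ∧ (∀ P ∈ PP, Big P) ∧
      ∀ a : ℤ, (∀ P ∈ PP, Hit P a) → good D a) :
    ∃ E : Set ℕ, DensityZero E ∧ ∀ (P lam : ι → ℤ), lam ≠ 0 → ∀ D,
      {n : ℕ | n ∉ E ∧ ¬ good D (∑ i, lam i * (P i * (b : ℤ) ^ n + trunc d n i))}.Finite := by
  classical
  choose PP h1 h2 h3 using h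
  obtain ⟨E, hE1, hE2⟩ := one_set hb hd (κ := {lam : ι → ℤ // lam ≠ 0} × 𝔇)
    (fun x => {c : ι → ℤ | ¬ ∀ P ∈ PP x.2, Hit P (lin x.1.1 c)})
    (fun x => pro_hits (h1 x.2) (h2 x.2) x.1.2)
  refine ⟨E, hE1, fun P lam hlam D => (hE2 P (⟨lam, hlam⟩, D)).subset ?_⟩
  rintro n ⟨hn, hng⟩
  exact ⟨hn, fun hall => hng (h3 D _ hall)⟩

end Pool.Agent.Zk82.DN
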