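import Pool.Agent.Zk82.DN.Eng

/-!
# The integers formed by a prefix and the first digits of normal numbers, modulo `q`

The same as `Eng.lean` for the vectors `P b ^ n + trunc d n`, where `P` is an arbitrary integral vector
(the integers with the digits of `P` followed by `d 0, …, d (n - 1)`).
-/

set_option autoImplicit false

namespace Pool.Agent.Zk82.DN

open Filter Topology Finset

variable {ι : Type} [Fintype ι] [DecidableEq ι] {b : ℕ}

variable {q : ℕ} [NeZero q]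

/-- the vector `P b ^ n + V n` modulo `q` -/
def W (q : ℕ) (P : ι → ℤ) (d : ℕ → ι → Fin b) (n : ℕ) : ι → ZMod q :=
  fun i => (P i : ZMod q) * (b : ZMod q) ^ n + V q d n i

lemma W_cast (P : ι → ℤ) (d : ℕ → ι → Fin b) (n : ℕ) :
    (fun i => ((P i * (b : ℤ) ^ n + trunc d n i : ℤ) : ZMod q)) = W q P d n := by
  funext i
  have := congrFun (trunc_cast (q := q) d n) i
  simp only [W] at this ⊢
  rw [← this]
  push_cast
  ring

lemma W_add (P : ι → ℤ) (d : ℕ → ι → Fin b) (n k : ℕ) (hk : (b : ZMod q) ^ k = 1) :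
    W q P d (n + k) = V q (fun j => d (n + j)) k + W q P d n := by
  funext i
  have := congrFun (V_add (q := q) d n k) i
  simp only [W, Pi.add_apply]
  rw [this, hk, pow_add, hk]
  ring

/-- exponential sums over the truncations -/
lemma exp_sumP (P : ι → ℤ) (hb : 2 ≤ b) (hcop : b.Coprime q) {d : ℕ → ι → Fin b} (hd : NormalSeq d)
    {g : ι → ZMod q} (hg : g ≠ 0) : ∀ η : ℝ, 0 < η →
    ∀ᶠ N : ℕ in atTop, ‖∑ n ∈ range N, chr g (W q P d n)‖ ≤ η * N := by
  obtain ⟨lam, hlam0, hlam1, hlam⟩ := exists_lam (ι := ι) hb q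
  refine vdc _ (fun n => (norm_chr _ _).le) fun ε hε => ?_
  -- choose the shift
  obtain ⟨L, hL⟩ := exists_pow_lt_of_lt_one hε hlam1
  have hφ0 : 0 < q.totient := Nat.totient_pos.2 (NeZero.pos q)
  refine ⟨q.totient * (L + 1), fun m hm => ?_⟩
  have hbp : ((b : ZMod q)) ^ (m * (q.totient * (L + 1))) = 1 := by
    have h1 : (b : ZMod q) ^ q.totient = 1 := by
      have h2 := Nat.ModEq.pow_totient hcop
      have h3 := (ZMod.natCast_eq_natCast_iff _ _ _).2 h2
      simpa using h3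
    rw [show m * (q.totient * (L + 1)) = q.totient * (m * (L + 1)) by ring, pow_mul, h1, one_pow]
  have hlt : lam ^ (m * (q.totient * (L + 1))) < ε := by
    refine lt_of_le_of_lt ?_ hL
    refine pow_le_pow_of_le_one hlam0 hlam1.le ?_
    have h1 : 1 * (1 * (L + 1)) ≤ m * (q.totient * (L + 1)) :=
      Nat.mul_le_mul hm (Nat.mul_le_mul_right _ hφ0)
    omega
  filter_upwards [corr_le hb hcop hd hlam0 hlam hg (m * (q.totient * (L + 1))) hlt] with N hN
  refine le_trans (le_of_eq ?_) hN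
  congr 1
  refine Finset.sum_congr rfl fun n _ => ?_
  rw [W_add P d n _ hbp, chr_add, mul_assoc, Complex.mul_conj, Complex.normSq_eq_norm_sq, norm_chr]
  simp

/-- **equidistribution** of the truncations modulo `q` -/
theorem equiP (P : ι → ℤ) (hb : 2 ≤ b) (hcop : b.Coprime q) {d : ℕ → ι → Fin b} (hd : NormalSeq d)
    (ρ : ι → ZMod q) (η : ℝ) (hη : 0 < η) : ∀ᶠ N : ℕ in atTop,
    (({n : ℕ | n < N ∧ W q P d n = ρ}.ncard : ℕ) : ℝ) ≤
      (((q : ℝ) ^ Fintype.card ι)⁻¹ + η) * N := by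
  classical
  have hq0 : (0 : ℝ) < q := by exact_mod_cast NeZero.pos q
  have hqc : (0 : ℝ) < (q : ℝ) ^ Fintype.card ι := by positivity
  have hall : ∀ᶠ N : ℕ in atTop, ∀ g ∈ (Finset.univ.erase (0 : ι → ZMod q)),
      ‖∑ n ∈ range N, chr g (W q P d n)‖ ≤ η * N := by
    rw [Filter.eventually_all_finset]
    intro g hg
    exact exp_sumP P hb hcop hd (Finset.ne_of_mem_erase hg) η hη
  filter_upwards [hall] with N hN
  have e1 : ((({n : ℕ | n < N ∧ W q P d n = ρ}.ncard : ℕ) : ℂ)) * (q : ℂ) ^ Fintype.card ι =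
      ∑ g : ι → ZMod q, chr g (-ρ) * ∑ n ∈ range N, chr g (W q P d n) := by
    have h1 : ∀ n ∈ range N, ∑ g : ι → ZMod q, chr g (-ρ) * chr g (W q P d n) =
        if W q P d n = ρ then (q : ℂ) ^ Fintype.card ι else 0 := by
      intro n _
      have h2 : ∀ g : ι → ZMod q, chr g (-ρ) * chr g (W q P d n) = chr g (W q P d n - ρ) := by
        intro g
        rw [← chr_add, neg_add_eq_sub]
      rw [Finset.sum_congr rfl fun g _ => h2 g, orth]
      simp only [sub_eq_zero]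
    simp only [Finset.mul_sum]
    rw [Finset.sum_comm, Finset.sum_congr rfl h1, ← Finset.sum_filter, Finset.sum_const,
      nsmul_eq_mul]
    congr 2
    rw [← Set.ncard_coe_finset]
    congr 1
    ext n
    simp
  have e2 : ∑ g : ι → ZMod q, chr g (-ρ) * ∑ n ∈ range N, chr g (W q P d n) =
      (N : ℂ) + ∑ g ∈ Finset.univ.erase (0 : ι → ZMod q),
        chr g (-ρ) * ∑ n ∈ range N, chr g (W q P d n) := by
    rw [← Finset.add_sum_erase _ _ (Finset.mem_univ (0 : ι → ZMod q))]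
    congr 1
    have h0 : ∀ x : ι → ZMod q, chr (0 : ι → ZMod q) x = 1 := by
      intro x
      unfold chr
      simp
    simp [h0]
  have h3 : (({n : ℕ | n < N ∧ W q P d n = ρ}.ncard : ℕ) : ℝ) * (q : ℝ) ^ Fintype.card ι ≤
      N + (q : ℝ) ^ Fintype.card ι * (η * N) := by
    have h4 : (({n : ℕ | n < N ∧ W q P d n = ρ}.ncard : ℕ) : ℝ) * (q : ℝ) ^ Fintype.card ι =
        ‖((({n : ℕ | n < N ∧ W q P d n = ρ}.ncard : ℕ) : ℂ)) * (q : ℂ) ^ Fintype.card ι‖ := by
      rw [norm_mul, norm_pow, Complex.norm_natCast, Complex.norm_natCast]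
    rw [h4, e1, e2]
    refine (norm_add_le _ _).trans (add_le_add (by rw [Complex.norm_natCast]) ?_)
    refine (norm_sum_le _ _).trans ?_
    have h5 : ∀ g ∈ Finset.univ.erase (0 : ι → ZMod q),
        ‖chr g (-ρ) * ∑ n ∈ range N, chr g (W q P d n)‖ ≤ η * N := by
      intro g hg
      rw [norm_mul, norm_chr, one_mul]
      exact hN g hg
    refine (Finset.sum_le_sum h5).trans ?_
    rw [Finset.sum_const, nsmul_eq_mul]
    refine mul_le_mul_of_nonneg_right ?_ (by positivity)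
    have h6 : (Finset.univ.erase (0 : ι → ZMod q)).card ≤ q ^ Fintype.card ι := by
      refine (Finset.card_le_univ _).trans (le_of_eq ?_)
      rw [Fintype.card_fun, ZMod.card]
    exact_mod_cast h6
  have h7 : (({n : ℕ | n < N ∧ W q P d n = ρ}.ncard : ℕ) : ℝ) ≤
      (N + (q : ℝ) ^ Fintype.card ι * (η * N)) / (q : ℝ) ^ Fintype.card ι := by
    rw [le_div_iff₀ hqc]
    exact h3
  refine h7.trans (le_of_eq ?_)
  field_simp

open Pool.Agent.N24.RW (ProNull)

/-- **The truncations of a normal sequence are in a pronull set only for `n` of density zero.** -/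
theorem rarelyP (P : ι → ℤ) (hb : 2 ≤ b) {d : ℕ → ι → Fin b} (hd : NormalSeq d) (B : Set (ι → ℤ))
    (hB : ProNull B) :
    Tendsto (fun N : ℕ => (({n : ℕ | n < N ∧ n ∈ {n : ℕ | (fun i => P i * (b : ℤ) ^ n + trunc d n i) ∈ B}}.ncard : ℕ) : ℝ) / (N : ℝ))
      atTop (𝓝 0) := by
  classical
  rw [Metric.tendsto_atTop]
  intro ε hε
  obtain ⟨q, hq0, hqb, hqB⟩ := hB b (by omega) (ε / 4) (by positivity)
  have : NeZero q := ⟨hq0.ne'⟩
  have hq0' : (0 : ℝ) < q := by exact_mod_cast hq0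
  set Im : Set (ι → ZMod q) := (fun (c : ι → ℤ) (i : ι) => (c i : ZMod q)) '' B with hIm
  have hImf : Im.Finite := Set.toFinite _
  set T : Finset (ι → ZMod q) := hImf.toFinset with hT
  set η : ℝ := ε / (4 * (T.card + 1)) with hη
  have hη0 : 0 < η := by positivity
  have hall : ∀ᶠ N : ℕ in atTop, ∀ ρ ∈ T,
      (({n : ℕ | n < N ∧ W q P d n = ρ}.ncard : ℕ) : ℝ) ≤
        (((q : ℝ) ^ Fintype.card ι)⁻¹ + η) * N := by
    rw [Filter.eventually_all_finset]
    intro ρ _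
    exact equiP P hb hqb.symm hd ρ η hη0
  obtain ⟨N₀, hN₀⟩ := Filter.eventually_atTop.1 hall
  refine ⟨N₀ + 1, fun N hN => ?_⟩
  have hN0 : (0 : ℝ) < N := by exact_mod_cast (by omega : 0 < N)
  have h1 := hN₀ N (by omega)
  have hsub : {n : ℕ | n < N ∧ n ∈ {n : ℕ | (fun i => P i * (b : ℤ) ^ n + trunc d n i) ∈ B}} ⊆
      ⋃ ρ ∈ T, {n : ℕ | n < N ∧ W q P d n = ρ} := by
    rintro n ⟨hn, hnB⟩
    rw [Set.mem_iUnion₂]
    refine ⟨W q P d n, ?_, hn, rfl⟩
    rw [hT, Set.Finite.mem_toFinset, ← W_cast]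
    exact ⟨fun i => P i * (b : ℤ) ^ n + trunc d n i, hnB, rfl⟩
  have hfin : ∀ ρ, {n : ℕ | n < N ∧ W q P d n = ρ}.Finite := fun ρ =>
    (Set.finite_Iio N).subset fun n hn => hn.1
  have h2 : (({n : ℕ | n < N ∧ n ∈ {n : ℕ | (fun i => P i * (b : ℤ) ^ n + trunc d n i) ∈ B}}.ncard : ℕ) : ℝ) ≤
      ∑ ρ ∈ T, (({n : ℕ | n < N ∧ W q P d n = ρ}.ncard : ℕ) : ℝ) := by
    have h3 := Set.ncard_le_ncard hsub (T.finite_toSet.biUnion fun ρ _ => hfin ρ)
    have h4 : (⋃ ρ ∈ T, {n : ℕ | n < N ∧ W q P d n = ρ}).ncard ≤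
        ∑ ρ ∈ T, {n : ℕ | n < N ∧ W q P d n = ρ}.ncard := by
      have h5 : (⋃ ρ ∈ T, {n : ℕ | n < N ∧ W q P d n = ρ}) =
          ((T.biUnion fun ρ => (hfin ρ).toFinset : Finset ℕ) : Set ℕ) := by
        ext n
        simp
      rw [h5, Set.ncard_coe_finset]
      refine Finset.card_biUnion_le.trans (Finset.sum_le_sum fun ρ _ => ?_)
      rw [Set.ncard_eq_toFinset_card _ (hfin ρ)]
    exact_mod_cast h3.trans h4
  have h6 : ∑ ρ ∈ T, (({n : ℕ | n < N ∧ W q P d n = ρ}.ncard : ℕ) : ℝ) ≤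
      T.card * ((((q : ℝ) ^ Fintype.card ι)⁻¹ + η) * N) := by
    refine (Finset.sum_le_sum h1).trans ?_
    rw [Finset.sum_const, nsmul_eq_mul]
  have hTc : (T.card : ℝ) ≤ ε / 4 * (q : ℝ) ^ Fintype.card ι := by
    have : T.card = Im.ncard := (Set.ncard_eq_toFinset_card _ hImf).symm
    rw [this]
    exact hqB
  have h7 : (T.card : ℝ) * (((q : ℝ) ^ Fintype.card ι)⁻¹ + η) ≤ ε / 2 := by
    have hqc : (0 : ℝ) < (q : ℝ) ^ Fintype.card ι := by positivity
    have h8 : (T.card : ℝ) * ((q : ℝ) ^ Fintype.card ι)⁻¹ ≤ ε / 4 := by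
      rw [← div_eq_mul_inv, div_le_iff₀ hqc]
      exact hTc
    have h9 : (T.card : ℝ) * η ≤ ε / 4 := by
      rw [hη, mul_div_assoc', div_le_div_iff₀ (by positivity) (by norm_num)]
      nlinarith [Nat.cast_nonneg (α := ℝ) T.card]
    rw [mul_add]
    linarith
  rw [Real.dist_eq, sub_zero, abs_of_nonneg (by positivity), div_lt_iff₀ hN0]
  calc (({n : ℕ | n < N ∧ n ∈ {n : ℕ | (fun i => P i * (b : ℤ) ^ n + trunc d n i) ∈ B}}.ncard : ℕ) : ℝ)
      ≤ T.card * ((((q : ℝ) ^ Fintype.card ι)⁻¹ + η) * N) := h2.trans h6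
    _ = (T.card * (((q : ℝ) ^ Fintype.card ι)⁻¹ + η)) * N := by ring
    _ ≤ ε / 2 * N := mul_le_mul_of_nonneg_right h7 hN0.le
    _ < ε * N := by nlinarith

end Pool.Agent.Zk82.DN
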