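import Mathlib

/-!
# An inequality of van der Corput with shifts which are multiples of a number
-/

set_option autoImplicit false

namespace Pool.Agent.Zk82.DN

open Filter Topology Finset

lemma shift_sum (f : ℕ → ℂ) (hf : ∀ n, ‖f n‖ ≤ 1) (N h : ℕ) :
    ‖∑ n ∈ range N, f (n + h) - ∑ n ∈ range N, f n‖ ≤ 2 * h := by
  induction h with
  | zero => simp
  | succ h ih =>
    have e : ∑ n ∈ range N, f (n + (h + 1)) = ∑ n ∈ range N, f (n + h) + (f (N + h) - f h) := by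
      have h1 := Finset.sum_range_succ (fun n => f (n + h)) N
      have h2 := Finset.sum_range_succ' (fun n => f (n + h)) N
      simp only [Nat.zero_add] at h2
      have h3 : ∑ n ∈ range N, f (n + 1 + h) = ∑ n ∈ range N, f (n + (h + 1)) :=
        Finset.sum_congr rfl fun n _ => by congr 1; ring
      rw [h3] at h2
      rw [h1] at h2
      linear_combination -h2
    rw [e]
    have h4 : ‖f (N + h) - f h‖ ≤ 2 := by
      refine (norm_sub_le _ _).trans ?_
      linarith [hf (N + h), hf h]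
    calc ‖∑ n ∈ range N, f (n + h) + (f (N + h) - f h) - ∑ n ∈ range N, f n‖
        = ‖(∑ n ∈ range N, f (n + h) - ∑ n ∈ range N, f n) + (f (N + h) - f h)‖ := by
          congr 1; ring
      _ ≤ 2 * h + 2 := (norm_add_le _ _).trans (add_le_add ih h4)
      _ = 2 * ((h + 1 : ℕ) : ℝ) := by push_cast; ring

/-- the finite inequality -/
lemma vdc_fin (f : ℕ → ℂ) (hf : ∀ n, ‖f n‖ ≤ 1) (s I N : ℕ) (hI : 1 ≤ I) (ε : ℝ)
    (hcor : ∀ m, 1 ≤ m → m < I →
      ‖∑ n ∈ range N, f (n + m * s) * (starRingEnd ℂ) (f n)‖ ≤ ε * N) (hε : 0 ≤ ε) :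
    ‖∑ n ∈ range N, f n‖ ^ 2 ≤ 2 * (N : ℝ) ^ 2 * (1 / I + ε) + 4 * I * s * N + 8 * (I * s) ^ 2 := by
  have hI0 : (0 : ℝ) < I := by exact_mod_cast hI
  set S : ℂ := ∑ n ∈ range N, f n with hS
  set D : ℂ := ∑ n ∈ range N, ∑ i ∈ range I, f (n + i * s) with hD
  -- averaging over the shifts
  have h1 : ‖(I : ℂ) * S - D‖ ≤ 2 * I * (I * s) := by
    have e : D = ∑ i ∈ range I, ∑ n ∈ range N, f (n + i * s) := Finset.sum_comm
    have e2 : (I : ℂ) * S - D = ∑ i ∈ range I, (S - ∑ n ∈ range N, f (n + i * s)) := by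
      rw [e, Finset.sum_sub_distrib, Finset.sum_const, card_range, nsmul_eq_mul]
    rw [e2]
    refine (norm_sum_le _ _).trans ?_
    have h2 : ∀ i ∈ range I, ‖S - ∑ n ∈ range N, f (n + i * s)‖ ≤ 2 * (I * s) := by
      intro i hi
      rw [norm_sub_rev]
      refine (shift_sum f hf N (i * s)).trans ?_
      push_cast
      have : (i : ℝ) ≤ I := by exact_mod_cast (mem_range.1 hi).le
      have h0 : (0 : ℝ) ≤ s := Nat.cast_nonneg s
      nlinarith
    refine (Finset.sum_le_sum h2).trans ?_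
    rw [Finset.sum_const, card_range, nsmul_eq_mul]
    nlinarith
  -- Cauchy-Schwarz
  have h3 : ‖D‖ ^ 2 ≤ N * ∑ n ∈ range N, ‖∑ i ∈ range I, f (n + i * s)‖ ^ 2 := by
    have h4 : ‖D‖ ≤ ∑ n ∈ range N, ‖∑ i ∈ range I, f (n + i * s)‖ := norm_sum_le _ _
    have h5 := sq_sum_le_card_mul_sum_sq (s := range N)
      (f := fun n => ‖∑ i ∈ range I, f (n + i * s)‖)
    rw [card_range] at h5
    exact (pow_le_pow_left₀ (norm_nonneg _) h4 2).trans h5
  -- the correlations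
  have hc : ∀ i ∈ range I, ∀ j ∈ range I,
      ‖∑ n ∈ range N, f (n + i * s) * (starRingEnd ℂ) (f (n + j * s))‖ ≤
        (if i = j then (N : ℝ) else 0) + (ε * N + 2 * (I * s)) := by
    have key : ∀ i j, j < i → i < I →
        ‖∑ n ∈ range N, f (n + i * s) * (starRingEnd ℂ) (f (n + j * s))‖ ≤
          ε * N + 2 * (I * s) := by
      intro i j hji hi
      set F : ℕ → ℂ := fun n => f (n + (i - j) * s) * (starRingEnd ℂ) (f n) with hF
      have hF1 : ∀ n, ‖F n‖ ≤ 1 := by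
        intro n
        rw [hF]
        simp only [norm_mul, RCLike.norm_conj]
        exact mul_le_one₀ (hf _) (norm_nonneg _) (hf _)
      have e : ∑ n ∈ range N, f (n + i * s) * (starRingEnd ℂ) (f (n + j * s)) =
          ∑ n ∈ range N, F (n + j * s) := by
        refine Finset.sum_congr rfl fun n _ => ?_
        rw [hF]
        simp only
        congr 2
        have : i = j + (i - j) := by omega
        nth_rewrite 1 [this]
        ring
      rw [e]
      have h4 := shift_sum F hF1 N (j * s)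
      have h5 := hcor (i - j) (by omega) (by omega)
      have h6 : ‖∑ n ∈ range N, F (n + j * s)‖ ≤
          ‖∑ n ∈ range N, F (n + j * s) - ∑ n ∈ range N, F n‖ + ‖∑ n ∈ range N, F n‖ := by
        have := norm_add_le (∑ n ∈ range N, F (n + j * s) - ∑ n ∈ range N, F n)
          (∑ n ∈ range N, F n)
        rwa [sub_add_cancel] at this
      have h7 : (2 : ℝ) * ((j * s : ℕ) : ℝ) ≤ 2 * (I * s) := by
        push_cast
        have : (j : ℝ) ≤ I := by exact_mod_cast (hji.trans hi).le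
        have h0 : (0 : ℝ) ≤ s := Nat.cast_nonneg s
        nlinarith
      linarith
    intro i hi j hj
    rw [mem_range] at hi hj
    have hpos : 0 ≤ ε * N + 2 * ((I : ℝ) * s) := by positivity
    rcases lt_trichotomy i j with h | h | h
    · have e : ∑ n ∈ range N, f (n + i * s) * (starRingEnd ℂ) (f (n + j * s)) =
          (starRingEnd ℂ) (∑ n ∈ range N, f (n + j * s) * (starRingEnd ℂ) (f (n + i * s))) := by
        rw [map_sum]
        refine Finset.sum_congr rfl fun n _ => ?_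
        rw [map_mul, Complex.conj_conj]
        ring
      rw [e, RCLike.norm_conj, if_neg h.ne, zero_add]
      exact key j i h hj
    · subst h
      rw [if_pos rfl]
      have h4 : ‖∑ n ∈ range N, f (n + i * s) * (starRingEnd ℂ) (f (n + i * s))‖ ≤ N := by
        refine (norm_sum_le _ _).trans ?_
        calc ∑ n ∈ range N, ‖f (n + i * s) * (starRingEnd ℂ) (f (n + i * s))‖
            ≤ ∑ n ∈ range N, (1 : ℝ) := by
              refine Finset.sum_le_sum fun n _ => ?_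
              rw [norm_mul, RCLike.norm_conj]
              exact mul_le_one₀ (hf _) (norm_nonneg _) (hf _)
          _ = N := by simp
      linarith
    · rw [if_neg h.ne', zero_add]
      exact key i j h hi
  have h4 : ∑ n ∈ range N, ‖∑ i ∈ range I, f (n + i * s)‖ ^ 2 ≤
      I * N + I ^ 2 * (ε * N + 2 * (I * s)) := by
    have e : ((∑ n ∈ range N, ‖∑ i ∈ range I, f (n + i * s)‖ ^ 2 : ℝ) : ℂ) =
        ∑ i ∈ range I, ∑ j ∈ range I, ∑ n ∈ range N,
          f (n + i * s) * (starRingEnd ℂ) (f (n + j * s)) := by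
      have e1 : ∀ n, ((‖∑ i ∈ range I, f (n + i * s)‖ ^ 2 : ℝ) : ℂ) =
          ∑ i ∈ range I, ∑ j ∈ range I, f (n + i * s) * (starRingEnd ℂ) (f (n + j * s)) := by
        intro n
        rw [← Finset.sum_mul_sum, ← map_sum, Complex.mul_conj]
        congr 1
        rw [Complex.normSq_eq_norm_sq]
      rw [Complex.ofReal_sum, Finset.sum_congr rfl fun n _ => e1 n, Finset.sum_comm]
      refine Finset.sum_congr rfl fun i _ => ?_
      rw [Finset.sum_comm]
    have h5 : (∑ n ∈ range N, ‖∑ i ∈ range I, f (n + i * s)‖ ^ 2 : ℝ) ≤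
        ∑ i ∈ range I, ∑ j ∈ range I,
          ((if i = j then (N : ℝ) else 0) + (ε * N + 2 * (I * s))) := by
      have h6 : (∑ n ∈ range N, ‖∑ i ∈ range I, f (n + i * s)‖ ^ 2 : ℝ) =
          ‖((∑ n ∈ range N, ‖∑ i ∈ range I, f (n + i * s)‖ ^ 2 : ℝ) : ℂ)‖ := by
        rw [Complex.norm_real, Real.norm_of_nonneg (Finset.sum_nonneg fun n _ => by positivity)]
      rw [h6, e]
      refine (norm_sum_le _ _).trans (Finset.sum_le_sum fun i hi => ?_)
      exact (norm_sum_le _ _).trans (Finset.sum_le_sum fun j hj => hc i hi j hj)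
    refine h5.trans (le_of_eq ?_)
    simp only [Finset.sum_add_distrib, Finset.sum_ite_eq, Finset.sum_const, card_range,
      nsmul_eq_mul]
    have e2 : ∑ i ∈ range I, (if i ∈ range I then (N : ℝ) else 0) = I * N := by
      rw [Finset.sum_congr rfl (fun i hi => if_pos hi), Finset.sum_const, card_range, nsmul_eq_mul]
    rw [e2]
    ring
  -- end
  have h6 : ‖D‖ ^ 2 ≤ N * (I * N + I ^ 2 * (ε * N + 2 * (I * s))) :=
    h3.trans (mul_le_mul_of_nonneg_left h4 (Nat.cast_nonneg _))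
  have h7 : (I : ℝ) * ‖S‖ ≤ ‖D‖ + 2 * I * (I * s) := by
    have h8 : ‖(I : ℂ) * S‖ ≤ ‖(I : ℂ) * S - D‖ + ‖D‖ := by
      have := norm_add_le ((I : ℂ) * S - D) D
      rwa [sub_add_cancel] at this
    rw [norm_mul, Complex.norm_natCast] at h8
    linarith
  have h9 : ((I : ℝ) * ‖S‖) ^ 2 ≤ 2 * ‖D‖ ^ 2 + 2 * (2 * I * (I * s)) ^ 2 := by
    have h10 := pow_le_pow_left₀ (by positivity) h7 2
    nlinarith [sq_nonneg (‖D‖ - 2 * I * (I * s))]
  have h10 : (I : ℝ) ^ 2 * ‖S‖ ^ 2 ≤ (I : ℝ) ^ 2 *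
      (2 * (N : ℝ) ^ 2 * (1 / I + ε) + 4 * I * s * N + 8 * (I * s) ^ 2) := by
    have e : (I : ℝ) ^ 2 * (2 * (N : ℝ) ^ 2 * (1 / I + ε) + 4 * I * s * N + 8 * (I * s) ^ 2) =
        2 * (N * (I * N + I ^ 2 * (ε * N + 2 * (I * s)))) + 2 * (2 * I * (I * s)) ^ 2 := by
      field_simp
      ring
    rw [e]
    calc (I : ℝ) ^ 2 * ‖S‖ ^ 2 = (I * ‖S‖) ^ 2 := by ring
      _ ≤ 2 * ‖D‖ ^ 2 + 2 * (2 * I * (I * s)) ^ 2 := h9
      _ ≤ _ := by linarith
  exact le_of_mul_le_mul_left h10 (by positivity)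

/-- **van der Corput**: if for each `ε > 0` the correlations with all the multiples of some `s ≥ 1` are
eventually at most `ε`, the means tend to zero. -/
theorem vdc (f : ℕ → ℂ) (hf : ∀ n, ‖f n‖ ≤ 1)
    (hcor : ∀ ε : ℝ, 0 < ε → ∃ s : ℕ, ∀ m, 1 ≤ m → ∀ᶠ N : ℕ in atTop,
      ‖∑ n ∈ range N, f (n + m * s) * (starRingEnd ℂ) (f n)‖ ≤ ε * N) :
    ∀ η : ℝ, 0 < η → ∀ᶠ N : ℕ in atTop, ‖∑ n ∈ range N, f n‖ ≤ η * N := by
  intro η hη
  obtain ⟨s, hs⟩ := hcor (η ^ 2 / 8) (by positivity)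
  obtain ⟨I, hI⟩ := exists_nat_gt (8 / η ^ 2)
  have hI0 : (0 : ℝ) < I := lt_trans (by positivity) hI
  have hI1 : 1 ≤ I := by exact_mod_cast Nat.one_le_iff_ne_zero.2 (by
    intro h
    rw [h] at hI0
    simp at hI0)
  have hI2 : 1 / (I : ℝ) ≤ η ^ 2 / 8 := by
    rw [div_le_div_iff₀ hI0 (by norm_num)]
    rw [div_lt_iff₀ (by positivity)] at hI
    linarith
  have hall : ∀ᶠ N : ℕ in atTop, ∀ m ∈ Finset.Ico 1 I,
      ‖∑ n ∈ range N, f (n + m * s) * (starRingEnd ℂ) (f n)‖ ≤ η ^ 2 / 8 * N := by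
    rw [Filter.eventually_all_finset]
    intro m hm
    exact hs m (Finset.mem_Ico.1 hm).1
  obtain ⟨N₀, hN₀⟩ := exists_nat_gt ((4 * I * s + 8 * (I * s) ^ 2) / (η ^ 2 / 2) + 1)
  filter_upwards [hall, eventually_ge_atTop N₀, eventually_ge_atTop 1] with N h1 h2 h3
  have h4 := vdc_fin f hf s I N hI1 (η ^ 2 / 8)
    (fun m hm1 hm2 => h1 m (Finset.mem_Ico.2 ⟨hm1, hm2⟩)) (by positivity)
  have hN1 : (1 : ℝ) ≤ N := by exact_mod_cast h3
  have hN2 : (4 * I * s + 8 * (I * s) ^ 2) / (η ^ 2 / 2) ≤ (N : ℝ) := by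
    have : (N₀ : ℝ) ≤ N := by exact_mod_cast h2
    linarith
  rw [div_le_iff₀ (by positivity)] at hN2
  have h5 : ‖∑ n ∈ range N, f n‖ ^ 2 ≤ (η * N) ^ 2 := by
    refine h4.trans ?_
    have h6 : 4 * (I : ℝ) * s * N + 8 * (I * s) ^ 2 ≤ (4 * I * s + 8 * (I * s) ^ 2) * N := by
      have : 8 * ((I : ℝ) * s) ^ 2 ≤ 8 * (I * s) ^ 2 * N := le_mul_of_one_le_right (by positivity) hN1
      linarith
    have h7 : (4 * (I : ℝ) * s + 8 * (I * s) ^ 2) * N ≤ (N * (η ^ 2 / 2)) * N :=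
      mul_le_mul_of_nonneg_right hN2 (by positivity)
    have h8 : 2 * (N : ℝ) ^ 2 * (1 / I + η ^ 2 / 8) ≤ 2 * (N : ℝ) ^ 2 * (η ^ 2 / 8 + η ^ 2 / 8) :=
      mul_le_mul_of_nonneg_left (by linarith) (by positivity)
    nlinarith
  exact (pow_le_pow_iff_left₀ (norm_nonneg _) (by positivity) two_ne_zero).1 h5

end Pool.Agent.Zk82.DN
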